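import Pool.Agent.Y174.OB.Stm

/-! OB-EASY: the numerical dimension of the total space of a fibration, with boundary (following
`Pool.Agent.Y174.easy_add`). -/

set_option autoImplicit false
set_option linter.overlappingInstances false
set_option linter.unusedSectionVars false

open FF IntermediateField Pool.Agent.W619.PQ Pool.Agent.W619.PL Pool.Agent.W619.TW
  Pool.Agent.W603.LV Pool.Agent.W619.Y Pool.Agent.W824.PG Pool.Agent.TH122.AB MvPolynomial
  Pool.Agent.Y173.QA Pool.Agent.Y174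

namespace Pool.Agent.Y179.OB

section

variable {k : Type} [Field k] [CharZero k]

/-- linear lower bound for the orders of the sections at a divisorial place -/
theorem lin_boundP {K' : Type} [Field K'] [Algebra k K'] {n : ℕ} (htr : Algebra.trdeg k K' = n)
    (hfin : ∀ y : Fin n → K', IsTranscendenceBasis k y →
      FiniteDimensional (IntermediateField.adjoin k (Set.range y)) K')
    {w : Place k K'} (hw : IsDivisorial w n) (E : Fin n → Derivation k K' K')
    (δ : Place k K' → ℝ) (S : Finset K') (c : K') :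
    ∃ C : ℕ, ∀ (m : ℕ) (ω : (Fin n → Derivation k K' K') → K'), 1 ≤ m →
      PairSec k K' n δ S m 1 ω → Ge w (-((C * m : ℕ) : ℤ)) (c ^ m * ω E) := by
  classical
  obtain ⟨y, F, i0, hy, hFy, hi0, hyreg, hF⟩ := Pool.Agent.Y174.pFRAME k K' n htr hfin w hw
  obtain ⟨M, hM⟩ : ∃ M : Matrix (Fin n) (Fin n) K', M = Matrix.of fun b c => E b (y c) := ⟨_, rfl⟩
  have hEF : E = fun b => ∑ c, M b c • F c := by
    funext b
    rw [der_expand hy hFy (E b), hM]
    rfl
  obtain ⟨C, hC⟩ : ∃ C : ℕ, (w.ord c).natAbs + (w.ord M.det).natAbs +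
    ∑ s ∈ S, (w.ord s).natAbs + ⌈|δ w|⌉₊ ≤ C := ⟨_, le_rfl⟩
  refine ⟨C, fun m ω hm hω => ?_⟩
  have h1 := hω.1 M F
  rw [← hEF] at h1
  rw [h1]
  by_cases hc0 : c = 0
  · left
    rw [hc0, zero_pow (by omega), zero_mul]
  by_cases hM0 : M.det = 0
  · left
    rw [hM0, zero_pow (by omega), zero_mul, mul_zero]
  by_cases hF0 : ω F = 0
  · left
    rw [hF0, mul_zero, mul_zero]
  obtain ⟨s, hs, hs0, hle⟩ := (hω.2 w hw F hF).resolve_left hF0
  right
  rw [w.ord_mul (pow_ne_zero _ hc0) (mul_ne_zero (pow_ne_zero _ hM0) hF0),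
    w.ord_mul (pow_ne_zero _ hM0) hF0, w.ord_pow, w.ord_pow]
  have h2 : (w.ord s).natAbs ≤ ∑ s ∈ S, (w.ord s).natAbs :=
    Finset.single_le_sum (f := fun s => (w.ord s).natAbs) (fun _ _ => Nat.zero_le _) hs
  have h3 : ((w.ord c).natAbs : ℤ) + (w.ord M.det).natAbs + (w.ord s).natAbs + ⌈|δ w|⌉₊ ≤ C := by
    exact_mod_cast (by omega : (w.ord c).natAbs + (w.ord M.det).natAbs + (w.ord s).natAbs +
      ⌈|δ w|⌉₊ ≤ C)
  have h4 : -((w.ord c).natAbs : ℤ) ≤ w.ord c := by omega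
  have h5 : -((w.ord M.det).natAbs : ℤ) ≤ w.ord M.det := by omega
  have h6 : -((w.ord s).natAbs : ℤ) ≤ w.ord s := by omega
  have hm' : (1 : ℤ) ≤ m := by exact_mod_cast hm
  have hd : δ w ≤ (⌈|δ w|⌉₊ : ℝ) := (le_abs_self _).trans (Nat.le_ceil _)
  have hle' : w.ord s - (m : ℤ) * (⌈|δ w|⌉₊ : ℤ) ≤ w.ord (ω F) := by
    have h7 : (m : ℝ) * δ w ≤ m * (⌈|δ w|⌉₊ : ℝ) := mul_le_mul_of_nonneg_left hd (Nat.cast_nonneg m)
    have h8 : (w.ord s : ℝ) - (m : ℝ) * (⌈|δ w|⌉₊ : ℝ) ≤ (w.ord (ω F) : ℝ) := by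
      push_cast at hle
      linarith
    exact_mod_cast h8
  push_cast
  have h7 : (C : ℤ) * m ≥ (((w.ord c).natAbs : ℤ) + (w.ord M.det).natAbs +
      (w.ord s).natAbs + ⌈|δ w|⌉₊) * m := mul_le_mul_of_nonneg_right h3 (by linarith)
  have h8 : (m : ℤ) * (-((w.ord c).natAbs : ℤ)) ≤ m * w.ord c :=
    mul_le_mul_of_nonneg_left h4 (by linarith)
  have h9 : (m : ℤ) * (-((w.ord M.det).natAbs : ℤ)) ≤ m * w.ord M.det :=
    mul_le_mul_of_nonneg_left h5 (by linarith)
  have h10 : ((w.ord s).natAbs : ℤ) * 1 ≤ ((w.ord s).natAbs : ℤ) * m :=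
    mul_le_mul_of_nonneg_left hm' (by positivity)
  nlinarith

/-- a function which bounds the boundary at the adic places -/
theorem exists_bdry {K : Type} [Field K] [Algebra k K] {n : ℕ} {Z : Fin n → K}
    (hZ : IsTranscendenceBasis k Z) (G : Finset K) : ∃ b : K, b ≠ 0 ∧
      ∀ P : Place k K, (∀ Q : MvPolynomial (Fin n) k, P.Reg (aeval Z Q)) →
        ∀ g ∈ G, g ≠ 0 → P.ord g ≤ P.ord b := by
  classical
  choose q hq0 hq using fun z : K => exists_mult hZ z
  have hne : ∀ z : K, aeval Z (q z) ≠ 0 := fun z h0 =>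
    hq0 z ((injective_iff_map_eq_zero _).1 hZ.1 _ h0)
  have hprod : aeval Z (∏ g ∈ G, q g⁻¹) ≠ 0 := by
    rw [map_prod]
    exact Finset.prod_ne_zero_iff.2 fun g _ => hne _
  refine ⟨aeval Z (∏ g ∈ G, q g⁻¹), hprod, fun P hP g hg hg0 => ?_⟩
  have h1 : P.Reg (aeval Z (∏ g ∈ G, q g⁻¹) * g⁻¹) := by
    rw [← Finset.mul_prod_erase G _ hg, map_mul, mul_comm (aeval Z (q g⁻¹)), mul_assoc]
    exact P.reg_mul (hP _) (reg_of_int hP (hq g⁻¹))
  have h2 := h1.resolve_left (mul_ne_zero hprod (inv_ne_zero hg0))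
  rw [P.ord_mul hprod (inv_ne_zero hg0), P.ord_inv] at h2
  linarith

end

section

variable {k L K Λ F : Type} [Field k] [CharZero k] [Field L] [Field K] [Field Λ]
  [Field F] [Algebra k L] [Algebra k K] [Algebra L K] [IsScalarTower k L K] [Algebra L Λ]
  [Algebra Λ F] [Algebra K F] [Algebra L F] [IsScalarTower L Λ F] [IsScalarTower L K F]
  [Algebra k Λ] [Algebra k F] [IsScalarTower k Λ F] [IsScalarTower k K F]
  [IsScalarTower k L Λ]

/-- **The numerical dimension of the total space.** -/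
theorem easy (hessL : Algebra.EssFiniteType k L) (hess : Algebra.EssFiniteType k K)
    [Algebra.IsAlgebraic L Λ]
    (hgenF : IntermediateField.adjoin Λ (Set.range (algebraMap K F)) = ⊤)
    (hcl : ∀ x : K, IsIntegral L x → ∃ y : L, algebraMap L K y = x)
    {d r : ℕ} (hL : Algebra.trdeg k L = d) (hn : Algebra.trdeg k K = (d + (r + 1) : ℕ)) {h : ℕ}
    {δ : Place k K → ℝ} {δ' : Place Λ F → ℝ} (hδ : IsPullFib δ δ') (G : Finset K)
    (hG : ∀ v : Place k K, IsDivisorial v (d + (r + 1)) → ∃ g ∈ G, g ≠ 0 ∧ δ v ≤ (v.ord g : ℝ))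
    (hnum : PairNum Λ F (r + 1) δ' h) :
    PairNum k K (d + (r + 1)) δ (d + h) := by
  classical
  have hL0 : CharZero L := charZero_of_injective_algebraMap (algebraMap k L).injective
  have hΛ0 : CharZero Λ := charZero_of_injective_algebraMap (algebraMap k Λ).injective
  have hLK := trdeg_LK (L := L) hL hn
  obtain ⟨t, ht⟩ := Pool.Agent.W636.PG.exists_basis k L d hL
  obtain ⟨x, hx⟩ := Pool.Agent.W636.PG.exists_basis L K (r + 1) hLK
  have hZ := basis_append ht hx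
  have hfdL := fin_adj hessL t ht
  have hfin : ∀ y : Fin (d + (r + 1)) → K, IsTranscendenceBasis k y →
      FiniteDimensional (IntermediateField.adjoin k (Set.range y)) K :=
    fun y hy => fin_adj hess y hy
  have hfd := hfin _ hZ
  obtain ⟨E, hE⟩ := Pool.Agent.W636.PG.exists_duals k K (d + (r + 1)) _ hZ
  intro S
  obtain ⟨C1, hC1⟩ := fib_count (Λ := Λ) (F := F) hess hgenF hcl hL hn ht hx hE
    hδ hnum S
  -- clearing the denominators
  choose q hq0 hq using fun i => exists_clear hZ hfd (E i)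
  obtain ⟨c, hc⟩ : ∃ c : K, c = ∏ i, aeval (Fin.append (algebraMap L K ∘ t) x) (q i) := ⟨_, rfl⟩
  have hc0 : c ≠ 0 := by
    rw [hc]
    refine Finset.prod_ne_zero_iff.2 fun i _ h0 => hq0 i ?_
    exact (injective_iff_map_eq_zero _).1 hZ.1 _ h0
  have hcE : ∀ p : MvPolynomial (Fin (d + (r + 1))) k, Irreducible p → ∀ P : Place k K,
      Adic (Fin.append (algebraMap L K ∘ t) x) p P → ∀ i, Pres P (c • E i) := by
    intro p hp P hP i f hf
    have h1 := hq i p hp P hP f hf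
    rw [hc, ← Finset.mul_prod_erase Finset.univ _ (Finset.mem_univ i), mul_comm, mul_smul,
      Derivation.smul_apply, smul_eq_mul]
    refine P.reg_mul ?_ h1
    have h2 : (∏ j ∈ Finset.univ.erase i,
        aeval (Fin.append (algebraMap L K ∘ t) x) (q j)) ∈ regRing P :=
      prod_mem fun j _ => adic_reg hP (q j)
    exact h2
  -- the boundary
  obtain ⟨b0, hb0, hb0G⟩ := exists_bdry hZ G
  obtain ⟨c', hc'⟩ : ∃ c' : K, c' = c ^ (d + (r + 1)) * b0 := ⟨_, rfl⟩
  have hc'0 : c' ≠ 0 := by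
    rw [hc']
    exact mul_ne_zero (pow_ne_zero _ hc0) hb0
  obtain ⟨T, hTfin, hTdeg, C2, c2, hC2⟩ := count_rel ht hx hfd hfdL S
  -- the bound at infinity
  have hlb : ∀ P : Place k K, IsDivisorial P (d + (r + 1)) → ∃ C : ℕ,
      ∀ (m : ℕ) (ω : (Fin (d + (r + 1)) → Derivation k K K) → K), 1 ≤ m →
      PairSec k K (d + (r + 1)) δ S m 1 ω →
        Ge P (-((C * m : ℕ) : ℤ)) (c' ^ m * ω E) :=
    fun P hP => lin_boundP hn hfin hP E δ S c'
  have hdivT : ∀ b, ∀ P ∈ T b, IsDivisorial P (d + (r + 1)) := by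
    intro b P hP
    obtain ⟨e, he, hdeg⟩ := hTdeg b P hP
    refine div_of_deg hZ.1 (b := b) fun f hf hf0 => ?_
    rw [hdeg f hf, hf0]
    simp
  obtain ⟨C3, hC3⟩ : ∃ C3 : ℕ, ∀ b, ∀ P ∈ T b, ∀ (m : ℕ)
      (ω : (Fin (d + (r + 1)) → Derivation k K K) → K), 1 ≤ m →
      PairSec k K (d + (r + 1)) δ S m 1 ω →
        Ge P (-((C3 * m : ℕ) : ℤ)) (c' ^ m * ω E) := by
    choose Cf hCf using hlb
    have hfin2 : (⋃ b, T b).Finite := Set.finite_iUnion hTfin
    have := hfin2.fintype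
    let g : (⋃ b, T b) → ℕ := fun P => Cf P.1 (by
      obtain ⟨b, hb⟩ := Set.mem_iUnion.1 P.2
      exact hdivT b P.1 hb)
    refine ⟨∑ P, g P, fun b P hP m ω hm hω => ?_⟩
    have hPm : P ∈ ⋃ b, T b := Set.mem_iUnion.2 ⟨b, hP⟩
    have h1 := hCf P (hdivT b P hP) m ω hm hω
    refine h1.mono ?_
    have h2 : g ⟨P, hPm⟩ ≤ ∑ P, g P :=
      Finset.single_le_sum (fun _ _ => Nat.zero_le _) (Finset.mem_univ _)
    have h3 : Cf P (hdivT b P hP) * m ≤ (∑ P, g P) * m := Nat.mul_le_mul_right _ h2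
    have h4 : ((Cf P (hdivT b P hP) * m : ℕ) : ℤ) ≤ (((∑ P, g P) * m : ℕ) : ℤ) := by
      exact_mod_cast h3
    exact neg_le_neg h4
  have hexp : ∀ D : Derivation k K K, ∃ a : Fin (d + (r + 1)) → K, D = ∑ i, a i • E i :=
    fun D => ⟨_, der_expand hZ hE D⟩
  refine ⟨C2 * C1 * (C3 + c2) ^ d, fun m N hm hI => ?_⟩
  obtain ⟨ω, hli, hω⟩ := hI
  have hcm : c' ^ m ≠ 0 := pow_ne_zero _ hc'0
  have hlin := lin_frame (fun D => hexp D) hli (fun l => (hω l).1) hcm
  have hrk : Module.finrank L (Submodule.span L (Set.range fun l =>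
      c' ^ m * ω l E)) ≤ C1 * m ^ h := by
    have h1 := hC1 m N hm ω fun l => hω l
    have h2 : Submodule.span L (Set.range fun l => c' ^ m * ω l E) =
        (Submodule.span L (Set.range fun l => ω l E)).map
          (LinearMap.mulLeft L (c' ^ m)) := by
      rw [Submodule.map_span, ← Set.range_comp]
      rfl
    rw [h2]
    have h3 : FiniteDimensional L (Submodule.span L (Set.range fun l => ω l E)) :=
      FiniteDimensional.span_of_finite L (Set.finite_range _)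
    exact (Submodule.finrank_map_le _ _).trans h1
  have h1 := hC2 (fun _ => C3 * m) N (C1 * m ^ h) _ hlin hrk (fun l p hp P hP => ?_)
    fun l b P hP => hC3 b P hP m (ω l) hm (hω l)
  · refine h1.trans ?_
    rw [Finset.prod_const, Finset.card_univ, Fintype.card_fin]
    have h2 : C3 * m + c2 ≤ (C3 + c2) * m := by
      rw [Nat.add_mul]
      have := Nat.le_mul_of_pos_right c2 hm
      omega
    have h3 : (C3 * m + c2) ^ d ≤ (C3 + c2) ^ d * m ^ d := by
      rw [← Nat.mul_pow]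
      exact Nat.pow_le_pow_left h2 d
    calc C2 * (C1 * m ^ h) * (C3 * m + c2) ^ d ≤
        C2 * (C1 * m ^ h) * ((C3 + c2) ^ d * m ^ d) := Nat.mul_le_mul_left _ h3
      _ = C2 * C1 * (C3 + c2) ^ d * m ^ (d + h) := by
        rw [pow_add]
        ring
  · change Dom P S 1 (c' ^ m * ω l E)
    have h2 : c' ^ m * ω l E = b0 ^ m * ω l (fun i => c • E i) := by
      rw [phi_smul (hω l).1 c E, hc']
      ring
    rw [h2]
    by_cases h3 : ω l (fun i => c • E i) = 0
    · left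
      rw [h3, mul_zero]
    obtain ⟨s, hs, hs0, hle⟩ := ((hω l).2 P (adic_div hZ.1 hp hP) (fun i => c • E i)
      (fun i f hf => hcE p hp P hP i f hf)).resolve_left h3
    obtain ⟨g, hgG, hg0, hδg⟩ := hG P (adic_div hZ.1 hp hP)
    have h4 := hb0G P (fun Q => adic_reg hP Q) g hgG hg0
    refine Or.inr ⟨s, hs, hs0, ?_⟩
    rw [P.ord_mul (pow_ne_zero _ hb0) h3, P.ord_pow]
    have h5 : (m : ℝ) * δ P ≤ m * (P.ord b0 : ℝ) := by
      refine mul_le_mul_of_nonneg_left (hδg.trans ?_) (Nat.cast_nonneg m)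
      exact_mod_cast h4
    have h6 : (((1 : ℕ) : ℤ) * P.ord s : ℝ) ≤ ((m : ℤ) : ℝ) * (P.ord b0 : ℝ) +
        (P.ord (ω l (fun i => c • E i)) : ℝ) := by
      push_cast at hle ⊢
      linarith
    exact_mod_cast h6

end

theorem t_EASY : Pool.Agent.Y174.OB.S_EASY := by
  intro k L K Λ F _ _ _ _ _ _ _ _ _ _ _ _ _ _ _ _ _ _ _ _ _ hessL hess _ hgenF hcl d r hL hn h
    δ δ' hδ G hG hnum
  exact easy hessL hess hgenF hcl hL hn hδ G hG hnum

end Pool.Agent.Y179.OB
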